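import Pool.Agent.W622.ETG.Stm

set_option autoImplicit false
set_option linter.unusedVariables false
set_option linter.unusedSectionVars false

namespace Pool.Agent.W499.ELG

open Pool.Agent.W622.ETG Module

section
variable {V : Type} [AddCommGroup V] [Module (ZMod 2) V] [Finite V]

/-- decomposition of a member of the good part -/
theorem exists_sum {e : V} (A : Fam V) (G : Finset (DSub V)) (hG : ∀ X, X ∈ G ↔ X ∈ GB e A) (γ : Frm V)
    (h : γ ∈ (⨆ X ∈ GB e A, res A X)) :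
    ∃ g : DSub V → Frm V, (∀ X, g X ∈ res A X) ∧ ∑ X ∈ G, g X = γ := by
  classical
  have e : (⨆ X ∈ GB e A, res A X) = ⨆ X ∈ G, res A X := by
    simp only [hG]
  rw [e, Submodule.mem_iSup_finset_iff_exists_sum] at h
  obtain ⟨μ, hμ⟩ := h
  exact ⟨fun X => (μ X : Frm V), fun X => (μ X).2, hμ⟩

/-- support of a sum of forms of independent local blocks -/
theorem sp_sum {e : V} (A : Fam V) (hA : EFam e A) (N : Finset (DSub V))
    (hN : sSupIndep (N : Set (DSub V)))
    (hom : ∀ F ∈ N, om e A F ∈ A ∧ sp (om e A F) = F) :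
    sp (∑ F ∈ N, om e A F) = sSup (N : Set (DSub V)) := by
  classical
  induction N using Finset.induction_on with
  | empty => simp
  | insert F N hF ih =>
    have h1 : sSupIndep (N : Set (DSub V)) := hN.mono (by simp)
    have h2 := ih h1 (fun Z hZ => hom Z (Finset.mem_insert_of_mem hZ))
    have h3 := hom F (Finset.mem_insert_self F N)
    have hs : ∑ Z ∈ N, om e A Z ∈ A :=
      Submodule.sum_mem _ fun Z hZ => (hom Z (Finset.mem_insert_of_mem hZ)).1
    have hd : Disjoint (sp (om e A F)) (sp (∑ Z ∈ N, om e A Z)) := by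
      rw [h2, h3.2]
      have h4 := hN (show F ∈ ((insert F N : Finset (DSub V)) : Set (DSub V)) by simp)
      refine h4.mono_right (sSup_le_sSup ?_)
      intro Z hZ
      refine ⟨by simp [Finset.mem_coe.1 hZ], ?_⟩
      rintro rfl
      exact hF (Finset.mem_coe.1 hZ)
    rw [Finset.sum_insert hF, sp_add (hA _ h3.1) (hA _ hs) hd, h2, h3.2, Finset.coe_insert,
      sSup_insert]

/-- bad blocks are local -/
theorem loc_of_bad (hA4 : S_A4) {e : V} {A : Fam V} (mc : MC e A) {F : DSub V} (hF : F ∈ BB e A) :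
    LocBlock e A F := by
  rcases hF.1 with h | h
  · exact absurd (hA4 V e A F mc h) hF.2
  · exact h

/-- the `X`-part of a sum over bad blocks -/
theorem pr_bad (hA4 : S_A4) (hADD : S_ADD) (hBDIS : S_BDIS) (hOM : S_OM) {e : V} {A : Fam V} (mc : MC e A)
    {b : V} (hb : b ≠ 0) {X : DSub V} (hX : X ∈ GB e A) (N : Finset (DSub V))
    (hN : (N : Set (DSub V)) ⊆ BB e A) (hNb : sSup (N : Set (DSub V)) ≤ ann b) :
    (∑ F ∈ N, om e A F) ∈ A ∧ (∑ F ∈ N, om e A F) b = 0 ∧ IsPr A X (∑ F ∈ N, om e A F) 0 := by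
  classical
  induction N using Finset.induction_on with
  | empty =>
    refine ⟨by simp, by simp, ?_, ?_⟩
    · exact Submodule.zero_mem _
    · rw [Finset.sum_empty, add_zero, sp_zero]
      exact disjoint_bot_left
  | insert F N hF ih =>
    have hN1 : (N : Set (DSub V)) ⊆ BB e A := fun Z hZ => hN (by simp [Finset.mem_coe.1 hZ])
    have hNb1 : sSup (N : Set (DSub V)) ≤ ann b := by
      refine (sSup_le_sSup ?_).trans hNb
      simp
    obtain ⟨i1, i2, i3⟩ := ih hN1 hNb1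
    have hFB : F ∈ BB e A := hN (by simp)
    have hFb : F ≤ ann b := (le_sSup (by simp : F ∈ ((insert F N : Finset (DSub V)) :
      Set (DSub V)))).trans hNb
    obtain ⟨o1, _, o3, _⟩ := hOM V e A F mc.ef (loc_of_bad hA4 mc hFB)
    have hk : om e A F b = 0 := by
      rw [(mc.ef _ o1).ker_iff_ann, o3]
      exact hFb
    have hp : IsPr A X (om e A F) 0 := by
      refine ⟨Submodule.zero_mem _, ?_⟩
      rw [add_zero, o3]
      have hne : X ≠ F := by
        rintro rfl
        exact hFB.2 hX.2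
      exact (hBDIS V e A X F mc hX hFB.1 hne).symm
    refine ⟨?_, ?_, ?_⟩
    · rw [Finset.sum_insert hF]
      exact Submodule.add_mem _ o1 i1
    · rw [Finset.sum_insert hF, LinearMap.add_apply, hk, i2, add_zero]
    · rw [Finset.sum_insert hF]
      have := hADD V e A X b (om e A F) (∑ Z ∈ N, om e A Z) 0 0 mc hX hb o1 i1 hk i2 hp i3
      rwa [add_zero] at this

/-- the `X`-part of a sum of a member of the good part and a form with `X`-part zero -/
theorem pr_good (hCOMP : S_COMP) {e : V} {A : Fam V} (fw : FW e A) {X : DSub V} (hX : X ∈ GB e A)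
    (G : Finset (DSub V)) (hG : ∀ Z ∈ G, Z ∈ GB e A) (hXG : X ∈ G) (g : DSub V → Frm V)
    (hg : ∀ Z, g Z ∈ res A Z) (σ : Frm V) (hσ : σ ∈ A) (hσX : IsPr A X σ 0) :
    IsPr A X (∑ Z ∈ G, g Z + σ) (g X) := by
  classical
  have key : ∀ H : Finset (DSub V), (∀ Z ∈ H, Z ∈ GB e A) → X ∉ H →
      (g X + σ + ∑ Z ∈ H, g Z) ∈ A ∧ IsPr A X (g X + σ + ∑ Z ∈ H, g Z) (g X) := by
    intro H
    induction H using Finset.induction_on with
    | empty =>
      intro _ _
      rw [Finset.sum_empty, add_zero]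
      refine ⟨Submodule.add_mem _ (hg X).1 hσ, hg X, ?_⟩
      have e0 : g X + σ + g X = σ + 0 := by
        refine LinearMap.ext fun a => LinearMap.ext fun c => ?_
        simp only [LinearMap.add_apply, LinearMap.zero_apply]
        have := zadd ((g X) a c)
        linear_combination this
      rw [e0]
      exact hσX.2
    | insert Z H hZ ih =>
      intro h1 h2
      have h3 := ih (fun Y hY => h1 Y (Finset.mem_insert_of_mem hY))
        (fun h => h2 (Finset.mem_insert_of_mem h))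
      have hne : X ≠ Z := by
        rintro rfl
        exact h2 (Finset.mem_insert_self _ _)
      have e0 : g X + σ + ∑ Y ∈ insert Z H, g Y = (g X + σ + ∑ Y ∈ H, g Y) + g Z := by
        rw [Finset.sum_insert hZ]
        abel
      rw [e0]
      exact ⟨Submodule.add_mem _ h3.1 (hg Z).1,
        hCOMP V e A X Z _ _ _ fw.mc fw.cone hX (h1 Z (Finset.mem_insert_self _ _)) hne h3.1 (hg Z)
          h3.2⟩
  have h1 := (key (G.erase X) (fun Z hZ => hG Z (Finset.mem_of_mem_erase hZ))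
    (Finset.notMem_erase X G)).2
  have e0 : ∑ Z ∈ G, g Z + σ = g X + σ + ∑ Z ∈ G.erase X, g Z := by
    rw [← Finset.add_sum_erase G g hXG]
    abel
  rw [e0]
  exact h1

/-- a nonspanning set of bad blocks is part of a normal form -/
theorem sub_comps (hNF : S_NF) (hBLK : S_BLK) {e : V} {A : Fam V} (mc : MC e A) {b : V} (hb : b ≠ 0) :
    ∃ s : Set (DSub V), sSupIndep s ∧ ∀ F, Block e A F → F ≤ ann b → F ∈ s := by
  obtain ⟨_, s, hs⟩ := hNF V e (res A (ann b)) (mc.el _ (ann_ne_top hb))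
  exact ⟨s, hs.1, fun F hF hFb => hBLK V e A F (ann b) s mc.ef hF hFb hs⟩

end

theorem t_FUNI (hLU : S_LU) (hDEC : S_DEC) (hNF : S_NF) (hBLK : S_BLK) (hBNT : S_BNT)
    (hA4 : S_A4) (hADD : S_ADD) (hBDIS : S_BDIS) (hCOMP : S_COMP) (hFIND : S_FIND)
    (hOM : S_OM) : S_FUNI := by
  classical
  intro V _ _ _ e A N N' γ γ' fw hN hN' hNt hN't hγ hγ' heq
  have mc := fw.mc
  set G : Finset (DSub V) := (Set.toFinite (GB e A)).toFinset with hGdef
  have hG : ∀ X, X ∈ G ↔ X ∈ GB e A := fun X => Set.Finite.mem_toFinset _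
  obtain ⟨g, hg, hgs⟩ := exists_sum A G hG γ hγ
  obtain ⟨g', hg', hgs'⟩ := exists_sum A G hG γ' hγ'
  obtain ⟨b, hb, hNb⟩ := exists_ann hNt
  obtain ⟨b', hb', hNb'⟩ := exists_ann hN't
  have hsub : ∀ (M : Finset (DSub V)), (M : Set (DSub V)) ⊆ BB e A → ∀ c : V,
      sSup (M : Set (DSub V)) ≤ ann c → ∀ F ∈ M, F ≤ ann c := fun M _ c hc F hF =>
    (le_sSup (Finset.mem_coe.2 hF)).trans hc
  have hom : ∀ (M : Finset (DSub V)), (M : Set (DSub V)) ⊆ BB e A → ∀ F ∈ M,
      om e A F ∈ A ∧ sp (om e A F) = F := by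
    intro M hM F hF
    obtain ⟨o1, _, o3, _⟩ := hOM V e A F mc.ef (loc_of_bad hA4 mc (hM (Finset.mem_coe.2 hF)))
    exact ⟨o1, o3⟩
  -- the good parts agree
  have hgg : ∀ X ∈ G, g X = g' X := by
    intro X hX
    have hXG := (hG X).1 hX
    obtain ⟨a1, a2, a3⟩ := pr_bad hA4 hADD hBDIS hOM mc hb hXG N hN hNb
    obtain ⟨c1, c2, c3⟩ := pr_bad hA4 hADD hBDIS hOM mc hb' hXG N' hN' hNb'
    have p1 := pr_good hCOMP fw hXG G (fun Z hZ => (hG Z).1 hZ) hX g hg _ a1 a3
    have p2 := pr_good hCOMP fw hXG G (fun Z hZ => (hG Z).1 hZ) hX g' hg' _ c1 c3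
    rw [hgs] at p1
    rw [hgs', ← heq] at p2
    have hmem : γ + ∑ F ∈ N, om e A F ∈ A := by
      refine Submodule.add_mem _ ?_ a1
      rw [← hgs]
      exact Submodule.sum_mem _ fun Z _ => (hg Z).1
    exact (hDEC V e A X mc.ef).2.1 _ hmem _ _ p1 p2
  have hγγ : γ = γ' := by
    rw [← hgs, ← hgs']
    exact Finset.sum_congr rfl hgg
  refine ⟨hγγ, ?_⟩
  have hsum : ∑ F ∈ N, om e A F = ∑ F ∈ N', om e A F := by
    rw [hγγ] at heq
    refine LinearMap.ext fun a => LinearMap.ext fun c => ?_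
    have h1 := congrArg (fun ω : Frm V => ω a c) heq
    simp only [LinearMap.add_apply] at h1
    linear_combination h1
  obtain ⟨s, hs, hsB⟩ := sub_comps hNF hBLK mc hb
  obtain ⟨s', hs', hsB'⟩ := sub_comps hNF hBLK mc hb'
  have i1 : sSupIndep (N : Set (DSub V)) := hs.mono fun F hF =>
    hsB F (hN hF).1 (hsub N hN b hNb F (Finset.mem_coe.1 hF))
  have i2 : sSupIndep (N' : Set (DSub V)) := hs'.mono fun F hF =>
    hsB' F (hN' hF).1 (hsub N' hN' b' hNb' F (Finset.mem_coe.1 hF))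
  have e1 := sp_sum A mc.ef N i1 (hom N hN)
  have e2 := sp_sum A mc.ef N' i2 (hom N' hN')
  have e3 : sSup (N : Set (DSub V)) = sSup (N' : Set (DSub V)) := by
    rw [← e1, ← e2, hsum]
  have hNb2 : sSup (N' : Set (DSub V)) ≤ ann b := e3 ▸ hNb
  -- both sets lie in `s`
  have m1 : ∀ F ∈ N, F ∈ s := fun F hF => hsB F (hN (Finset.mem_coe.2 hF)).1 (hsub N hN b hNb F hF)
  have m2 : ∀ F ∈ N', F ∈ s := fun F hF =>
    hsB F (hN' (Finset.mem_coe.2 hF)).1 (hsub N' hN' b hNb2 F hF)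
  have main : ∀ (M M' : Finset (DSub V)), (∀ F ∈ M, F ∈ s ∧ F ∈ BB e A) → (∀ F ∈ M', F ∈ s) →
      sSup (M : Set (DSub V)) = sSup (M' : Set (DSub V)) → M ⊆ M' := by
    intro M M' h1 h2 h3 F hF
    by_contra hFM
    have h4 : F ≤ sSup (s \ {F}) := by
      refine (le_sSup (Finset.mem_coe.2 hF)).trans ?_
      rw [h3]
      apply sSup_le_sSup
      intro Z hZ
      refine ⟨h2 Z (Finset.mem_coe.1 hZ), ?_⟩
      rintro rfl
      exact hFM (Finset.mem_coe.1 hZ)
    have h5 := hs (h1 F hF).1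
    have h6 : F = ⊥ := by
      rw [← le_bot_iff]
      exact h5 le_rfl h4
    exact (hBNT V e A F mc (h1 F hF).2.1).2 h6
  apply Finset.Subset.antisymm
  · exact main N N' (fun F hF => ⟨m1 F hF, hN (Finset.mem_coe.2 hF)⟩) m2 e3
  · exact main N' N (fun F hF => ⟨m2 F hF, hN' (Finset.mem_coe.2 hF)⟩) m1 e3.symm

end Pool.Agent.W499.ELG
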